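import Pool.Agent.Helper52.BP.Sheet

set_option autoImplicit false

namespace Pool.Agent.Helper60.BP

open Finset Pool.Helper52.BP

variable {ι : Type} [Fintype ι] [DecidableEq ι]

/-- `-1` to the number of elements as a product -/
theorem negpow (D : Finset ι) (P : ι → Prop) [DecidablePred P] (x : ℝ) :
    x ^ (D.filter P).card = ∏ l : ι, if l ∈ D ∧ P l then x else 1 := by
  rw [Finset.prod_ite, Finset.prod_const, Finset.prod_const_one, mul_one]
  congr 2
  ext l
  simp

theorem prodD (D : Finset ι) (a b : ℝ) :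
    ∏ l : ι, (if l ∈ D then a * b else b) = a ^ D.card * b ^ Fintype.card ι := by
  have h : ∀ l : ι, (if l ∈ D then a * b else b) = (if l ∈ D then a else 1) * b := by
    intro l
    split_ifs <;> ring
  rw [Finset.prod_congr rfl (fun l _ => h l), Finset.prod_mul_distrib, Finset.prod_const,
    Finset.card_univ, Finset.prod_ite_mem, Finset.univ_inter, Finset.prod_const]

theorem sumPi (f : ι → Bool → ℝ) :
    ∑ v : ι → Bool, ∏ l, f l (v l) = ∏ l, ∑ b, f l b := by
  rw [Finset.prod_univ_sum, Fintype.piFinset_univ]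

/-- the sum over the second argument -/
theorem sumv (D : Finset ι) (v : ι → Bool) (mu : ℝ) :
    ∑ w : ι → Bool, mu ^ (D.filter (fun l => v l ≠ w l)).card =
      ((1 + mu) / 2) ^ D.card * 2 ^ Fintype.card ι := by
  have h1 : ∀ w : ι → Bool, mu ^ (D.filter (fun l => v l ≠ w l)).card =
      ∏ l : ι, (fun (l : ι) (b : Bool) => if l ∈ D ∧ v l ≠ b then mu else 1) l (w l) := by
    intro w
    exact negpow D (fun l => v l ≠ w l) mu
  rw [Finset.sum_congr rfl (fun w _ => h1 w),
    sumPi (fun (l : ι) (b : Bool) => if l ∈ D ∧ v l ≠ b then mu else 1), ← prodD]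
  apply Finset.prod_congr rfl
  intro l _
  rw [Fintype.sum_bool]
  by_cases hl : l ∈ D
  · cases v l <;> simp [hl] <;> ring_nf
  · simp [hl]; norm_num

theorem base (D : Finset ι) :
    |∑ v : ι → Bool, (-1 : ℝ) ^ (D.filter (fun l => v l = true)).card| ≤
      (3 / 4 : ℝ) ^ D.card * 2 ^ Fintype.card ι := by
  have h1 : ∀ v : ι → Bool, (-1 : ℝ) ^ (D.filter (fun l => v l = true)).card =
      ∏ l : ι, (fun (l : ι) (b : Bool) => if l ∈ D ∧ b = true then (-1 : ℝ) else 1) l (v l) := by
    intro v
    exact negpow D (fun l => v l = true) (-1)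
  rw [Finset.sum_congr rfl (fun v _ => h1 v),
    sumPi (fun (l : ι) (b : Bool) => if l ∈ D ∧ b = true then (-1 : ℝ) else 1), ← prodD,
    Finset.abs_prod]
  apply Finset.prod_le_prod
  · intro l _; exact abs_nonneg _
  · intro l _
    rw [Fintype.sum_bool]
    by_cases hl : l ∈ D
    · simp [hl]
    · simp [hl]; norm_num

theorem parity (D : Finset ι) (v w : ι → Bool) (P : ι → Prop) [DecidablePred P] :
    (-1 : ℝ) ^ (D.filter (fun l => v l = true ∧ P l)).card *
      (-1 : ℝ) ^ (D.filter (fun l => w l = true ∧ P l)).card =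
      (-1 : ℝ) ^ ((D.filter (fun l => v l ≠ w l)).filter P).card := by
  rw [negpow, negpow, Finset.filter_filter, negpow, ← Finset.prod_mul_distrib]
  apply Finset.prod_congr rfl
  intro l _
  by_cases hl : l ∈ D <;> by_cases hP : P l <;> cases v l <;> cases w l <;> simp [hl, hP]

theorem sumCons {β : Type} [Fintype β] (n : ℕ) (F : (Fin (n + 1) → β) → ℝ) :
    ∑ u : Fin (n + 1) → β, F u = ∑ v : β, ∑ u : Fin n → β, F (Fin.cons v u) := by
  rw [← (Fin.consEquiv (fun _ : Fin (n + 1) => β)).sum_comp, Fintype.sum_prod_type]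
  rfl

theorem mu_step (q : ℕ) : (1 + (1 - (1 / 4 : ℝ) ^ q)) / 2 ≤ (1 - (1 / 4 : ℝ) ^ (q + 1)) ^ 2 := by
  have h : (0 : ℝ) < (1 / 4 : ℝ) ^ q := by positivity
  have h2 : (1 / 4 : ℝ) ^ (q + 1) = (1 / 4 : ℝ) ^ q * (1 / 4) := pow_succ _ _
  rw [h2]
  nlinarith

theorem mu_nonneg (q : ℕ) : (0 : ℝ) ≤ 1 - (1 / 4 : ℝ) ^ q := by
  have : (1 / 4 : ℝ) ^ q ≤ 1 := pow_le_one₀ (by norm_num) (by norm_num)
  linarith

theorem main : ∀ (q : ℕ) (D : Finset ι) (ph : Fin (q + 1) → (Fin (q + 1) → ι → Bool) → ℝ),
    (∀ j u, |ph j u| ≤ 1) → (∀ j u u', (∀ j', j' ≠ j → u j' = u' j') → ph j u = ph j u') →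
    |∑ u : Fin (q + 1) → ι → Bool,
        (-1 : ℝ) ^ (D.filter (fun l => ∀ j, u j l = true)).card * ∏ j, ph j u| ≤
      (1 - (1 / 4 : ℝ) ^ (q + 1)) ^ D.card * 2 ^ ((q + 1) * Fintype.card ι) := by
  intro q
  induction q with
  | zero =>
    intro D ph hb hi
    have hc : ∀ u : Fin 1 → ι → Bool, ph 0 u = ph 0 (fun _ _ => false) := fun u =>
      hi 0 _ _ (fun j' hj' => absurd (Subsingleton.elim (α := Fin 1) j' 0) hj')
    have h1 : ∑ u : Fin (0 + 1) → ι → Bool,
        (-1 : ℝ) ^ (D.filter (fun l => ∀ j, u j l = true)).card * ∏ j, ph j u =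
        (∑ v : ι → Bool, (-1 : ℝ) ^ (D.filter (fun l => v l = true)).card) *
          ph 0 (fun _ _ => false) := by
      rw [← (Equiv.funUnique (Fin 1) (ι → Bool)).sum_comp, Finset.sum_mul]
      apply Finset.sum_congr rfl
      intro u _
      rw [Fin.prod_univ_one, hc u]
      congr 2
      simp
    rw [h1, abs_mul]
    calc _ ≤ ((3 / 4 : ℝ) ^ D.card * 2 ^ Fintype.card ι) * 1 :=
          mul_le_mul (base D) (hb _ _) (abs_nonneg _) (by positivity)
      _ = _ := by norm_num
  | succ q ih =>
    intro D ph hb hi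
    obtain ⟨c, hc⟩ : ∃ c : ℕ, c = Fintype.card ι := ⟨_, rfl⟩
    obtain ⟨mu, hmu⟩ : ∃ mu : ℝ, mu = 1 - (1 / 4 : ℝ) ^ (q + 1) := ⟨_, rfl⟩
    have hmu0 : 0 ≤ mu := by rw [hmu]; exact mu_nonneg _
    -- notation
    let A : (ι → Bool) → (Fin (q + 1) → ι → Bool) → ℝ := fun v u =>
      (-1 : ℝ) ^ (D.filter (fun l => v l = true ∧ ∀ j, u j l = true)).card
    let R : (ι → Bool) → (Fin (q + 1) → ι → Bool) → ℝ := fun v u =>
      ∏ j : Fin (q + 1), ph j.succ (Fin.cons v u)
    let g : (Fin (q + 1) → ι → Bool) → ℝ := fun u => ph 0 (Fin.cons (fun _ => false) u)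
    let h : (Fin (q + 1) → ι → Bool) → ℝ := fun u => ∑ v : ι → Bool, A v u * R v u
    have hS : ∑ u : Fin (q + 1 + 1) → ι → Bool,
        (-1 : ℝ) ^ (D.filter (fun l => ∀ j, u j l = true)).card * ∏ j, ph j u =
        ∑ u : Fin (q + 1) → ι → Bool, g u * h u := by
      rw [sumCons, Finset.sum_comm]
      apply Finset.sum_congr rfl
      intro u _
      simp only [h, Finset.mul_sum]
      apply Finset.sum_congr rfl
      intro v _
      rw [Fin.prod_univ_succ]
      have h0 : ph 0 (Fin.cons v u) = g u := by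
        apply hi
        intro j' hj'
        obtain ⟨i, rfl⟩ := Fin.exists_succ_eq.mpr hj'
        simp
      have h1 : (D.filter (fun l => ∀ j, (Fin.cons v u : Fin (q + 1 + 1) → ι → Bool) j l = true)) =
          D.filter (fun l => v l = true ∧ ∀ j, u j l = true) := by
        apply Finset.filter_congr
        intro l _
        rw [Fin.forall_fin_succ]
        simp
      rw [h0, h1]
      simp only [A, R]
      ring
    have hg : ∑ u : Fin (q + 1) → ι → Bool, g u ^ 2 ≤ 2 ^ ((q + 1) * c) := by
      calc ∑ u : Fin (q + 1) → ι → Bool, g u ^ 2 ≤ ∑ u : Fin (q + 1) → ι → Bool, (1 : ℝ) := by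
            apply Finset.sum_le_sum
            intro u _
            have := hb 0 (Fin.cons (fun _ => false) u)
            have h2 : |g u| ≤ 1 := this
            rw [← sq_abs]
            exact pow_le_one₀ (abs_nonneg _) h2
        _ = 2 ^ ((q + 1) * c) := by
            rw [Finset.sum_const, Finset.card_univ, Fintype.card_fun, Fintype.card_fun,
              Fintype.card_bool, Fintype.card_fin, ← hc, nsmul_eq_mul, mul_one]
            push_cast
            rw [← pow_mul, mul_comm]
    have hh : ∑ u : Fin (q + 1) → ι → Bool, h u ^ 2 ≤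
        (2 ^ c * (((1 + mu) / 2) ^ D.card * 2 ^ c)) * 2 ^ ((q + 1) * c) := by
      have e1 : ∑ u : Fin (q + 1) → ι → Bool, h u ^ 2 =
          ∑ v : ι → Bool, ∑ w : ι → Bool, ∑ u : Fin (q + 1) → ι → Bool,
            (-1 : ℝ) ^ ((D.filter (fun l => v l ≠ w l)).filter
              (fun l => ∀ j, u j l = true)).card *
            ∏ j : Fin (q + 1), (ph j.succ (Fin.cons v u) * ph j.succ (Fin.cons w u)) := by
        have e2 : ∀ u : Fin (q + 1) → ι → Bool, h u ^ 2 =
            ∑ v : ι → Bool, ∑ w : ι → Bool,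
            (-1 : ℝ) ^ ((D.filter (fun l => v l ≠ w l)).filter
              (fun l => ∀ j, u j l = true)).card *
            ∏ j : Fin (q + 1), (ph j.succ (Fin.cons v u) * ph j.succ (Fin.cons w u)) := by
          intro u
          simp only [h]
          rw [sq, Finset.sum_mul_sum]
          apply Finset.sum_congr rfl
          intro v _
          apply Finset.sum_congr rfl
          intro w _
          rw [← parity, Finset.prod_mul_distrib]
          simp only [A, R]
          ring
        rw [Finset.sum_congr rfl (fun u _ => e2 u), Finset.sum_comm]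
        apply Finset.sum_congr rfl
        intro v _
        rw [Finset.sum_comm]
      rw [e1]
      calc _ ≤ ∑ v : ι → Bool, ∑ w : ι → Bool,
            mu ^ (D.filter (fun l => v l ≠ w l)).card * 2 ^ ((q + 1) * c) := by
            apply Finset.sum_le_sum
            intro v _
            apply Finset.sum_le_sum
            intro w _
            refine (le_abs_self _).trans ?_
            rw [hmu, hc]
            apply ih (D.filter (fun l => v l ≠ w l))
              (fun j u => ph j.succ (Fin.cons v u) * ph j.succ (Fin.cons w u))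
            · intro j u
              rw [abs_mul]
              exact mul_le_one₀ (hb _ _) (abs_nonneg _) (hb _ _)
            · intro j u u' huu
              have hx : ∀ z : ι → Bool, ph j.succ (Fin.cons z u) = ph j.succ (Fin.cons z u') := by
                intro z
                apply hi
                intro j'
                refine Fin.cases ?_ ?_ j'
                · intro _; simp
                · intro i hne
                  simp only [Fin.cons_succ]
                  exact huu i (fun hij => hne (by rw [hij]))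
              rw [hx v, hx w]
        _ = _ := by
            simp only [← Finset.sum_mul]
            rw [Finset.sum_congr rfl (fun v _ => sumv D v mu), Finset.sum_const,
              Finset.card_univ, Fintype.card_fun, Fintype.card_bool, ← hc, nsmul_eq_mul]
            push_cast
            ring
    have hCS := Finset.sum_mul_sq_le_sq_mul_sq (Finset.univ : Finset (Fin (q + 1) → ι → Bool)) g h
    rw [hS]
    have hmu1 : (0 : ℝ) ≤ (1 + mu) / 2 := by linarith
    have hmu2 : (1 + mu) / 2 ≤ (1 - (1 / 4 : ℝ) ^ (q + 1 + 1)) ^ 2 := by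
      rw [hmu]; exact mu_step (q + 1)
    have hfin : (∑ u : Fin (q + 1) → ι → Bool, g u * h u) ^ 2 ≤
        ((1 - (1 / 4 : ℝ) ^ (q + 1 + 1)) ^ D.card * 2 ^ ((q + 1 + 1) * c)) ^ 2 := by
      calc (∑ u : Fin (q + 1) → ι → Bool, g u * h u) ^ 2
          ≤ (∑ u : Fin (q + 1) → ι → Bool, g u ^ 2) * ∑ u : Fin (q + 1) → ι → Bool, h u ^ 2 := hCS
        _ ≤ 2 ^ ((q + 1) * c) *
            ((2 ^ c * (((1 + mu) / 2) ^ D.card * 2 ^ c)) * 2 ^ ((q + 1) * c)) :=
            mul_le_mul hg hh (Finset.sum_nonneg (fun _ _ => sq_nonneg _)) (by positivity)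
        _ = ((1 + mu) / 2) ^ D.card * (2 ^ ((q + 1 + 1) * c)) ^ 2 := by
            have : (2 : ℝ) ^ ((q + 1 + 1) * c) = 2 ^ ((q + 1) * c) * 2 ^ c := by
              rw [← pow_add]; ring_nf
            rw [this]; ring
        _ ≤ ((1 - (1 / 4 : ℝ) ^ (q + 1 + 1)) ^ 2) ^ D.card * (2 ^ ((q + 1 + 1) * c)) ^ 2 := by
            gcongr
        _ = _ := by
            obtain ⟨x, hx⟩ : ∃ x : ℝ, x = 1 - (1 / 4 : ℝ) ^ (q + 1 + 1) := ⟨_, rfl⟩
            rw [← hx, mul_pow, ← pow_mul, ← pow_mul, ← pow_mul, mul_comm 2 D.card]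
    rw [← hc]
    exact abs_le_of_sq_le_sq hfin (mul_nonneg (pow_nonneg (mu_nonneg _) _) (by positivity))

theorem st_BNS : ST_BNS := by
  intro q s ph hq hb hi
  obtain ⟨k, rfl⟩ : ∃ k, q = k + 1 := ⟨q - 1, by omega⟩
  have h := main k (Finset.univ : Finset (Fin s)) ph hb hi
  rw [Finset.card_univ, Fintype.card_fin] at h
  exact h

end Pool.Agent.Helper60.BP
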